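import Pool.Agent.KS6_76.GWJ.JL

/-!
# Algebro-geometric Gromov–Witten variations and Jordan–Lefschetz cohomology rings

Let `V` be a closed connected symplectic manifold of dimension `2n` with vanishing first Chern class
whose genus-zero Gromov–Witten invariants in the classes `β ≠ 0` vanish (for example an aspherical
one), and let `R` be the subring of its even cohomology generated by `H²(V, ℂ)`. If at a single
point the variation with fibre `H^even(V, ℂ)` is locally equivalent to an algebro-geometric one (or
just to a subquotient of a semisimple variation), then `R` is a Jordan–Lefschetz ring: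

* `R` satisfies Poincaré duality;
* `R` satisfies the hard Lefschetz theorem for EVERY class `w ∈ H²(V, ℂ)` with `w ^ n ≠ 0`;
* every linear functional on `H²` extends to an operator `f` of degree `-2` on `R` with
  `[[f, a], b] ∈ H²` for all `a, b ∈ H²` (a Jordan triple product).
-/

set_option autoImplicit false

namespace Pool.Agent.Results.MP_a4dd1d_ag.JordanLefschetz

open H956GW (GWNumbers IsGWConnection IsLocallySubquotientOfSemisimple)

/-- The even cohomology ring `H` of a closed connected oriented manifold of dimension `2n`, with its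
grading and with integration over the manifold. -/
structure EvenCohomology (n : ℕ) (H : Type) [CommRing H] [Algebra ℂ H] where
  /-- `deg k = H^{2k}` -/
  deg : ℕ → Submodule ℂ H
  /-- `H` is the direct sum of the `H^{2k}` -/
  direct : DirectSum.IsInternal deg
  deg_zero : deg 0 = Submodule.span ℂ {1}
  mul_mem : ∀ i j, ∀ x ∈ deg i, ∀ y ∈ deg j, x * y ∈ deg (i + j)
  deg_large : ∀ k, n < k → ∀ x ∈ deg k, x = 0
  /-- integration over the manifold -/
  integral : H →ₗ[ℂ] ℂ
  integral_deg : ∀ k, k ≠ n → ∀ x ∈ deg k, integral x = 0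
  /-- integration is injective on `H^{2n}` -/
  integral_top : ∀ x ∈ deg n, integral x = 0 → x = 0
  /-- Poincaré duality -/
  duality : ∀ x, (∀ y, integral (x * y) = 0) → x = 0

variable {n : ℕ} {H : Type} [CommRing H] [Algebra ℂ H]

/-- The filtration by the classes of degree at most `p`. -/
def EvenCohomology.filtration (V : EvenCohomology n H) (p : ℤ) : Submodule ℂ H :=
  ⨆ (k : ℕ) (_ : 2 * (k : ℤ) ≤ p), V.deg k

/-- The subring `R` generated by `H²`. -/
def EvenCohomology.generatedByH2 (V : EvenCohomology n H) : Subalgebra ℂ H :=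
  Algebra.adjoin ℂ (V.deg 1 : Set H)

/-- Some class in `H²`, such as the class of a symplectic form, has a nonzero `n`-th power. -/
def EvenCohomology.HasSymplecticClass (V : EvenCohomology n H) : Prop :=
  ∃ w ∈ V.deg 1, V.integral (w ^ n) ≠ 0

/-- Poincaré duality for the subring `R` generated by `H²`. -/
def EvenCohomology.DualityOfR (V : EvenCohomology n H) : Prop :=
  ∀ b ∈ V.generatedByH2, (∀ a ∈ V.generatedByH2, V.integral (a * b) = 0) → b = 0

/-- The hard Lefschetz theorem for `R` and every class `w ∈ H²` with `w ^ n ≠ 0`: multiplication by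
`w ^ (n - 2 k)` is a bijection from the part of `R` of degree `2k` to the part of degree
`2(n-k)`. -/
def EvenCohomology.HardLefschetzOfR (V : EvenCohomology n H) : Prop :=
  ∀ w ∈ V.deg 1, V.integral (w ^ n) ≠ 0 → ∀ k, 2 * k ≤ n →
    ∀ y ∈ V.generatedByH2, y ∈ V.deg (n - k) →
      ∃! x, (x ∈ V.generatedByH2 ∧ x ∈ V.deg k) ∧ w ^ (n - 2 * k) * x = y

/-- The operator `f` on `R` lowers degrees by `2` and kills `R⁰`. -/
def EvenCohomology.Lowers (V : EvenCohomology n H)
    (f : V.generatedByH2 →ₗ[ℂ] V.generatedByH2) : Prop :=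
  (∀ k, ∀ x : V.generatedByH2, (x : H) ∈ V.deg (k + 1) → (f x : H) ∈ V.deg k) ∧
    ∀ x : V.generatedByH2, (x : H) ∈ V.deg 0 → f x = 0

/-- For all `a, b ∈ H²`, the double commutator `[[f, a], b]` is the multiplication by an element of
`H²`. -/
def EvenCohomology.IsTriple (V : EvenCohomology n H)
    (f : V.generatedByH2 →ₗ[ℂ] V.generatedByH2) : Prop :=
  ∀ a b : V.generatedByH2, (a : H) ∈ V.deg 1 → (b : H) ∈ V.deg 1 →
    ∃ q : V.generatedByH2, (q : H) ∈ V.deg 1 ∧
      ∀ x, f (a * b * x) - a * f (b * x) - b * f (a * x) + a * b * f x = q * x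

/-- Every linear functional `l` on `H²` is induced by an operator `f` of degree `-2` on `R` such
that `[[f, a], b] ∈ H²` for all `a, b ∈ H²`. -/
def EvenCohomology.JordanStructureOfR (V : EvenCohomology n H) : Prop :=
  ∀ l : V.deg 1 →ₗ[ℂ] ℂ, ∃ f : V.generatedByH2 →ₗ[ℂ] V.generatedByH2,
    V.Lowers f ∧ V.IsTriple f ∧
    ∀ a : V.generatedByH2, ∀ ha : (a : H) ∈ V.deg 1, f a = l ⟨a, ha⟩ • 1

/-- The subring generated by `H²` is a Jordan–Lefschetz ring. -/
def EvenCohomology.IsJordanLefschetz (V : EvenCohomology n H) : Prop :=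
  V.DualityOfR ∧ V.HardLefschetzOfR ∧ V.JordanStructureOfR

/-- For genus-zero Gromov–Witten numbers `g` that vanish in nonzero classes, on the even cohomology
ring of `V`, for the connection form `A` that their pre-potential defines over `H²`, in linear
coordinates `c` on `H²`, and for any point `t₀`, the variation with fibre `H`, connection `d + A` and
the filtration by degree is not, near `t₀`, equivalent to a subquotient of a semisimple
variation. -/
def EvenCohomology.NowhereAlgebroGeometric.{u₁, u₂, u₃, u₄} (V : EvenCohomology n H) : Prop :=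
  ∀ (B : Type) [AddCommGroup B] (g : GWNumbers B H), g.IsAspherical V.integral →
  ∀ A : H → H → H → H, IsGWConnection V.integral (V.deg 1) g.prepotential A →
  ∀ (S : Type) [NormedAddCommGroup S] [NormedSpace ℂ S] (c : S ≃ₗ[ℂ] V.deg 1) (t₀ : S),
    ¬ IsLocallySubquotientOfSemisimple.{u₁, u₂, u₃, u₄} (fun t v h => A (c t) (c v) h)
      V.filtration t₀

open Pool.Agent.KS6_76.GWJ Pool.Agent.Y348.GW

/-- **Theorem.** If the subring of the even cohomology generated by `H²` is not a
Jordan–Lefschetz ring, the Gromov–Witten variation is nowhere algebro-geometric. -/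
theorem result.{u₁, u₂, u₃, u₄} (n : ℕ) (H : Type) [CommRing H] [Algebra ℂ H] [Module.Finite ℂ H]
    (V : EvenCohomology n H) (hV : V.HasSymplecticClass) (hJL : ¬ V.IsJordanLefschetz) :
    EvenCohomology.NowhereAlgebroGeometric.{u₁, u₂, u₃, u₄} V := by
  intro B _ g hg A hA S _ _ c t₀ hloc
  apply hJL
  obtain ⟨w₀, hw₀, hw₀n⟩ := hV
  have hNT : Nontrivial H := by
    refine ⟨⟨w₀ ^ n, 0, fun h => hw₀n ?_⟩⟩
    rw [h, map_zero]
  have hd0 := V.deg_zero
  have hSS : SS (gr V.deg) := SS_of_semisimple.{u₁, u₂, u₃, u₄} hd0 V.mul_mem V.deg_large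
    V.integral V.duality B g hg A hA S c t₀ hloc
  have hPD : ∀ b ∈ Algebra.adjoin ℂ (V.deg 1 : Set H),
      (∀ a ∈ Algebra.adjoin ℂ (V.deg 1 : Set H), V.integral (a * b) = 0) → b = 0 := by
    intro b hb hb0
    by_contra hne
    exact criterion.{u₁, u₂, u₃, u₄} V.deg_zero V.mul_mem V.deg_large V.integral V.integral_deg
      V.integral_top V.duality w₀ hw₀ hw₀n b hb hne hb0 B g hg A hA S c t₀ hloc
  have hind := V.direct.submodule_iSupIndep
  refine ⟨hPD, ?_, ?_⟩
  · intro w hw hwn k hk y hyR hy
    exact hard_lefschetz_bijective hd0 V.mul_mem V.deg_large hind hSS V.integral V.integral_deg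
      hPD hw hwn hk hyR hy
  · intro l
    obtain ⟨f, h1, h2, h3, h4⟩ := jordan_structure hd0 V.mul_mem V.deg_large hind hSS l
    exact ⟨f, ⟨h1, h2⟩, h4, h3⟩

end Pool.Agent.Results.MP_a4dd1d_ag.JordanLefschetz
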