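import Pool.Agent.KS6_76.GWJ.JL
import Pool.Agent.KS6_76.NM.Prod
import Pool.Agent.KS6_76.NM.Coh

/-!
# Gromov–Witten variations of symplectic nilmanifolds

Let `V = Γ \ G` be a closed symplectic nilmanifold of dimension `2n ≥ 6`, not a torus, such that
`G` is 2-step nilpotent, or has an abelian normal subgroup of codimension one, or is a product of
two symplectic nilpotent groups of positive dimension. Then the variation with fibre
`H^even(V, ℂ)` defined by the genus-zero Gromov–Witten invariants of `V` is not algebro-geometric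
near any point. (`V` is parallelizable and aspherical, so its Chern classes vanish and it has no
nonconstant pseudoholomorphic spheres; by Nomizu's theorem its cohomology is that of the complex of
invariant forms.)

The proof: the variation of a symplectic manifold without pseudoholomorphic spheres can be
algebro-geometric at a point only if the subring of the even cohomology generated by `H²` satisfies
the hard Lefschetz theorem for every `w ∈ H²` with `w ^ n ≠ 0`. For the nilmanifolds above there is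
such a `w` and a nonzero `u ∈ H²` with `w ^ (n - 2) u = 0`.
-/

set_option autoImplicit false

namespace Pool.Agent.Results.MP_a4dd1d_ag.SymplecticNilmanifolds

open H956GW (GWNumbers IsGWConnection IsLocallySubquotientOfSemisimple)

/-! ### The even cohomology ring of a closed connected oriented `2n`-manifold -/

/-- The even cohomology ring `H` of a closed connected oriented manifold of dimension `2n`, with its
grading and with integration over the manifold. -/
structure EvenCohomology (n : ℕ) (H : Type) [CommRing H] [Algebra ℂ H] where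
  /-- `deg k = H^{2k}` -/
  deg : ℕ → Submodule ℂ H
  /-- `H` is the direct sum of the `H^{2k}` -/
  direct : DirectSum.IsInternal deg
  deg_zero : deg 0 = Submodule.span ℂ {1}
  mul_mem : ∀ i j, ∀ x ∈ deg i, ∀ y ∈ deg j, x * y ∈ deg (i + j)
  deg_large : ∀ k, n < k → ∀ x ∈ deg k, x = 0
  /-- integration over the manifold -/
  integral : H →ₗ[ℂ] ℂ
  integral_deg : ∀ k, k ≠ n → ∀ x ∈ deg k, integral x = 0
  /-- integration is injective on `H^{2n}` -/
  integral_top : ∀ x ∈ deg n, integral x = 0 → x = 0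
  /-- Poincaré duality -/
  duality : ∀ x, (∀ y, integral (x * y) = 0) → x = 0

/-- The filtration by the classes of degree at most `p`. -/
def EvenCohomology.filtration {n : ℕ} {H : Type} [CommRing H] [Algebra ℂ H]
    (V : EvenCohomology n H) (p : ℤ) : Submodule ℂ H :=
  ⨆ (k : ℕ) (_ : 2 * (k : ℤ) ≤ p), V.deg k

/-- For genus-zero Gromov–Witten numbers `g` that vanish in nonzero classes, on the even cohomology
ring of `V`, for the connection form `A` that their pre-potential defines over `H²`, in linear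
coordinates `c` on `H²`, and for any point `t₀`, the variation with fibre `H`, connection `d + A` and
the filtration by degree is not, near `t₀`, equivalent to a subquotient of a semisimple
variation. -/
def EvenCohomology.NowhereAlgebroGeometric.{u₁, u₂, u₃, u₄} {n : ℕ} {H : Type} [CommRing H]
    [Algebra ℂ H] (V : EvenCohomology n H) : Prop :=
  ∀ (B : Type) [AddCommGroup B] (g : GWNumbers B H), g.IsAspherical V.integral →
  ∀ A : H → H → H → H, IsGWConnection V.integral (V.deg 1) g.prepotential A →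
  ∀ (S : Type) [NormedAddCommGroup S] [NormedSpace ℂ S] (c : S ≃ₗ[ℂ] V.deg 1) (t₀ : S),
    ¬ IsLocallySubquotientOfSemisimple.{u₁, u₂, u₃, u₄} (fun t v h => A (c t) (c v) h)
      V.filtration t₀

/-! ### Invariant forms on nilpotent Lie groups -/

/-- The complex of left-invariant complex-valued forms on a Lie group `G`: the exterior algebra of
the space `W` of invariant 1-forms, with the exterior derivative `d`. -/
structure InvariantForms (W : Type) [AddCommGroup W] [Module ℂ W] where
  /-- the exterior derivative -/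
  d : ExteriorAlgebra ℂ W →ₗ[ℂ] ExteriorAlgebra ℂ W
  leibniz : ∀ x y, d (x * y) = d x * y + CliffordAlgebra.involute x * d y
  d_one_form : ∀ v, d (ExteriorAlgebra.ι ℂ v) ∈ ⋀[ℂ]^2 W
  d_d : ∀ x, d (d x) = 0

namespace InvariantForms

variable {W : Type} [AddCommGroup W] [Module ℂ W] (G : InvariantForms W)

/-- The sums of products `a ∧ b` with `a, b ∈ S`. -/
def twoForms (S : Submodule ℂ W) : Submodule ℂ (ExteriorAlgebra ℂ W) :=
  Submodule.span ℂ {x | ∃ a ∈ S, ∃ b ∈ S, x = ExteriorAlgebra.ι ℂ a * ExteriorAlgebra.ι ℂ b}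

/-- The annihilators of the terms `𝔤 ⊇ [𝔤, 𝔤] ⊇ [𝔤, [𝔤, 𝔤]] ⊇ ⋯` of the lower central series of
the Lie algebra `𝔤` of `G`: the first one is zero, and a 1-form `v` is in the next one if `dv` is a
sum of products of 1-forms in the preceding one. The second one, `stage 1`, consists of the closed
1-forms. -/
def stage : ℕ → Submodule ℂ W
  | 0 => ⊥
  | k + 1 => (twoForms (stage k)).comap (G.d ∘ₗ ExteriorAlgebra.ι ℂ)

/-- `G` is nilpotent. -/
def IsNilpotent : Prop := ∃ k, G.stage k = ⊤

/-- `G` is nilpotent of step at most two: `[𝔤, [𝔤, 𝔤]] = 0`. -/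
def IsTwoStep : Prop := G.stage 2 = ⊤

/-- `G` is abelian: all invariant 1-forms are closed. -/
def IsAbelian : Prop := ∀ v, G.d (ExteriorAlgebra.ι ℂ v) = 0

/-- `𝔤` has an abelian ideal of codimension one, the kernel of a closed 1-form `e ≠ 0`: all
differentials of 1-forms are divisible by `e`. -/
def HasAbelianIdeal : Prop :=
  ∃ e : W, e ≠ 0 ∧ G.d (ExteriorAlgebra.ι ℂ e) = 0 ∧
    ∀ v, ∃ u, G.d (ExteriorAlgebra.ι ℂ v) = ExteriorAlgebra.ι ℂ e * ExteriorAlgebra.ι ℂ u

/-- The group `G` of dimension `2n` has an invariant symplectic form (with complex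
coefficients). -/
def IsSymplectic (n : ℕ) : Prop := ∃ ω ∈ ⋀[ℂ]^2 W, G.d ω = 0 ∧ ω ^ n ≠ 0

/-- The group `G` of dimension `2n` is the product of two symplectic groups of positive
dimension. -/
def IsSymplecticProduct (n : ℕ) : Prop :=
  ∃ W₁ W₂ : Submodule ℂ W, IsCompl W₁ W₂ ∧ W₁ ≠ ⊥ ∧ W₂ ≠ ⊥ ∧
    (∀ v ∈ W₁, G.d (ExteriorAlgebra.ι ℂ v) ∈ twoForms W₁) ∧
    (∀ v ∈ W₂, G.d (ExteriorAlgebra.ι ℂ v) ∈ twoForms W₂) ∧
    ∃ ω₁ ∈ twoForms W₁, ∃ ω₂ ∈ twoForms W₂, G.d ω₁ = 0 ∧ G.d ω₂ = 0 ∧ (ω₁ + ω₂) ^ n ≠ 0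

/-- The algebra of closed invariant forms of even degree. -/
def evenClosed : Subalgebra ℂ (ExteriorAlgebra ℂ W) where
  carrier := {x | CliffordAlgebra.involute x = x ∧ G.d x = 0}
  mul_mem' := by
    rintro x y ⟨hx, hx'⟩ ⟨hy, hy'⟩
    refine ⟨by rw [map_mul, hx, hy], ?_⟩
    rw [G.leibniz, hx', hy', mul_zero, zero_mul, add_zero]
  add_mem' := by
    rintro x y ⟨hx, hx'⟩ ⟨hy, hy'⟩
    exact ⟨by rw [map_add, hx, hy], by rw [map_add, hx', hy', add_zero]⟩
  algebraMap_mem' := by
    intro r
    refine ⟨AlgHom.commutes _ _, ?_⟩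
    have h := G.leibniz 1 1
    have h1 : CliffordAlgebra.involute (Q := (0 : QuadraticForm ℂ W)) 1 = 1 := map_one _
    rw [mul_one, h1, one_mul, mul_one] at h
    have h0 : G.d 1 = 0 := left_eq_add.1 h
    rw [Algebra.algebraMap_eq_smul_one, map_smul, h0, smul_zero]

end InvariantForms

/-- `H` is the even cohomology ring of the complex of invariant forms: the algebra of even closed
forms modulo the exact forms, and `H^{2k}` consists of the classes of the closed forms of degree
`2k`. -/
def EvenCohomology.IsComputedBy {n : ℕ} {H : Type} [CommRing H] [Algebra ℂ H]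
    (V : EvenCohomology n H) {W : Type} [AddCommGroup W] [Module ℂ W]
    (G : InvariantForms W) : Prop :=
  ∃ cls : G.evenClosed →ₐ[ℂ] H, Function.Surjective cls ∧
    (∀ z, cls z = 0 ↔ ∃ y, G.d y = (z : ExteriorAlgebra ℂ W)) ∧
    ∀ k, ∀ h : H, h ∈ V.deg k ↔
      ∃ z : G.evenClosed, (z : ExteriorAlgebra ℂ W) ∈ ⋀[ℂ]^(2 * k) W ∧ cls z = h

/-! ### Proofs -/

open Pool.Agent.KS6_76.GWJ Pool.Agent.KS6_76.NM Pool.Agent.Y348.GW

variable {W : Type} [AddCommGroup W] [Module ℂ W]

/-- The differential as used in the helper files. -/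
noncomputable def dif (G : InvariantForms W) : Dif W :=
  ⟨G.d, G.leibniz, G.d_one_form, G.d_d⟩

theorem stage_eq (G : InvariantForms W) (k : ℕ) : (dif G).stage k = G.stage k := by
  induction k with
  | zero => rfl
  | succ k ih =>
    change (w2 ((dif G).stage k)).comap _ = (InvariantForms.twoForms (G.stage k)).comap _
    rw [ih]
    rfl

theorem stage_mono (D : Dif W) (k : ℕ) : D.stage k ≤ D.stage (k + 1) := by
  induction k with
  | zero => exact bot_le
  | succ k ih => exact Submodule.comap_mono (w2_mono ih)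

/-- The algebraic core: the hard Lefschetz property in degree two fails for some symplectic
form. -/
theorem exists_not_HL [FiniteDimensional ℂ W] {m : ℕ} (hm : 1 ≤ m)
    (hW : Module.finrank ℂ W = 2 * (m + 2)) (G : InvariantForms W) (hs : G.IsSymplectic (m + 2))
    (hnil : G.IsNilpotent) (hna : ¬ G.IsAbelian)
    (h : G.IsTwoStep ∨ G.HasAbelianIdeal ∨ G.IsSymplecticProduct (m + 2)) :
    ∃ w ∈ ⋀[ℂ]^2 W, G.d w = 0 ∧ w ^ (m + 2) ≠ 0 ∧ ¬ HL (dif G) m w := by
  obtain ⟨N, hN⟩ := hnil
  rw [← stage_eq] at hN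
  have huni : ∀ x ∈ ⋀[ℂ]^(2 * m + 3) W, (dif G).d x = 0 := fun x hx =>
    (dif G).unimodular hN (by omega) hx
  have hB : (dif G).B ≠ ⊥ := by
    intro hbot
    apply hna
    intro v
    have h1 : (dif G).d (ExteriorAlgebra.ι ℂ v) ∈ (dif G).B := (dif G).mem_B.2 ⟨v, rfl⟩
    rw [hbot] at h1
    exact (Submodule.mem_bot ℂ).1 h1
  obtain ⟨ω, hω, hdω, hωn⟩ := hs
  rcases h with h | ⟨e, he0, hde, hA⟩ | ⟨W₁, W₂, hc, hW₁, hW₂, h₁, h₂, ω₁, hω₁, ω₂, hω₂, hd₁, hd₂,
    hωn'⟩
  · refine two_step (dif G) hm hW ?_ hB huni hω hdω hωn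
    rintro _ ⟨v, rfl⟩
    have h1 : v ∈ G.stage 2 := by rw [h]; trivial
    rw [← stage_eq] at h1
    have h2 : (dif G).d (ExteriorAlgebra.ι ℂ v) ∈ w2 ((dif G).stage 1) := h1
    refine w2_mono ?_ h2
    intro u hu
    have h3 : (dif G).d (ExteriorAlgebra.ι ℂ u) ∈ w2 (⊥ : Submodule ℂ W) := hu
    rw [w2_bot] at h3
    exact (dif G).mem_Z.2 ((Submodule.mem_bot ℂ).1 h3)
  · exact codim_one (dif G) hm hW ((dif G).mem_Z.2 hde) he0 hA hN hB huni hω hdω hωn
  · have hω₁' : ω₁ ∈ w2 W₁ := hω₁
    have hω₂' : ω₂ ∈ w2 W₂ := hω₂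
    have hd : (dif G).d (ω₁ + ω₂) = 0 := by
      change G.d (ω₁ + ω₂) = 0
      rw [map_add, hd₁, hd₂, add_zero]
    refine ⟨ω₁ + ω₂, Submodule.add_mem _ (w2_le hω₁') (w2_le hω₂'), hd, hωn', ?_⟩
    by_cases hna₁ : ∃ v ∈ W₁, (dif G).d (ExteriorAlgebra.ι ℂ v) ≠ 0
    · exact product (dif G) hW hc h₁ h₂ hN hna₁ hW₂ hω₁' hω₂' hd hωn'
    · by_cases hna₂ : ∃ v ∈ W₂, (dif G).d (ExteriorAlgebra.ι ℂ v) ≠ 0
      · have := product (dif G) hW hc.symm h₂ h₁ hN hna₂ hW₁ hω₂' hω₁' (by rwa [add_comm])
          (by rwa [add_comm])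
        rwa [add_comm] at this
      · exfalso
        push Not at hna₁ hna₂
        apply hna
        intro v
        have h1 : v ∈ W₁ ⊔ W₂ := by rw [hc.sup_eq_top]; trivial
        obtain ⟨v₁, hv₁, v₂, hv₂, rfl⟩ := Submodule.mem_sup.1 h1
        have e1 : G.d (ExteriorAlgebra.ι ℂ v₁) = 0 := hna₁ v₁ hv₁
        have e2 : G.d (ExteriorAlgebra.ι ℂ v₂) = 0 := hna₂ v₂ hv₂
        rw [map_add, map_add, e1, e2, add_zero]

/-- The even cohomology ring of the complex of invariant forms of a nilpotent group. -/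
noncomputable def model {n : ℕ} (hn : 1 ≤ n) (hW : Module.finrank ℂ W = 2 * n)
    (G : InvariantForms W) {N : ℕ} (hN : (dif G).stage N = ⊤) :
    EvenCohomology n (dif G).Hev :=
  have : FiniteDimensional ℂ W := FiniteDimensional.of_finrank_pos (by omega)
  { deg := (dif G).deg
    direct := (dif G).direct hW
    deg_zero := (dif G).deg_zero
    mul_mem := fun _ _ _ hx _ hy => (dif G).mul_mem_deg_add hx hy
    deg_large := fun _ hk _ hx => (dif G).deg_eq_bot (by omega) hx
    integral := (dif G).integral (Dif.top_d hN)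
    integral_deg := fun _ hk _ hx => (dif G).integral_deg (Dif.top_d hN) (by omega) hx
    integral_top := fun _ hx h => (dif G).integral_top (Dif.top_d hN) hW hx h
    duality := (dif G).duality (Dif.top_d hN) ⟨n, by omega⟩ }

/-- **Main theorem.** Let `G` be a non-abelian nilpotent Lie group of dimension `2n ≥ 6` with an
invariant symplectic form, such that `G` is 2-step nilpotent, or has an abelian ideal of codimension
one, or is the product of two symplectic groups of positive dimension. The even cohomology ring of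
the complex of invariant forms has Poincaré duality (so that there is an `EvenCohomology` as in the
statement), and its variation is nowhere algebro-geometric. -/
theorem result.{u₁, u₂, u₃, u₄} (n : ℕ) (hn : 3 ≤ n) (W : Type) [AddCommGroup W] [Module ℂ W]
    (hW : Module.finrank ℂ W = 2 * n) (G : InvariantForms W) (hs : G.IsSymplectic n)
    (hnil : G.IsNilpotent) (hna : ¬ G.IsAbelian)
    (h : G.IsTwoStep ∨ G.HasAbelianIdeal ∨ G.IsSymplecticProduct n) :
    (∃ (H : Type) (_ : CommRing H) (_ : Algebra ℂ H) (V : EvenCohomology n H),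
      V.IsComputedBy G) ∧
    ∀ (H : Type) [CommRing H] [Algebra ℂ H] (V : EvenCohomology n H), V.IsComputedBy G →
      EvenCohomology.NowhereAlgebroGeometric.{u₁, u₂, u₃, u₄} V := by
  have hfin : FiniteDimensional ℂ W := FiniteDimensional.of_finrank_pos (by omega)
  obtain ⟨m, rfl⟩ : ∃ m, n = m + 2 := ⟨n - 2, by omega⟩
  obtain ⟨N, hN⟩ := hnil
  have hN' := hN
  rw [← stage_eq] at hN'
  constructor
  · refine ⟨(dif G).Hev, inferInstance, inferInstance, model (by omega) hW G hN',
      (dif G).cls, (dif G).cls_surjective, fun z => (dif G).cls_eq_zero, fun k h => ?_⟩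
    exact (dif G).mem_deg
  · intro H _ _ V hV B _ g hg A hA S _ _ c t₀ hloc
    obtain ⟨w, hw, hdw, hwn, hHL⟩ := exists_not_HL (by omega) hW G hs ⟨N, hN⟩ hna h
    obtain ⟨cls, hsurj, hker, hdeg⟩ := hV
    have hfinH : Module.Finite ℂ H := by
      have : FiniteDimensional ℂ G.evenClosed :=
        inferInstanceAs (FiniteDimensional ℂ (Subalgebra.toSubmodule G.evenClosed))
      exact Module.Finite.of_surjective cls.toLinearMap hsurj
    let zw : G.evenClosed := ⟨w, inv_two hw, hdw⟩
    have hw1 : cls zw ∈ V.deg 1 := (hdeg 1 _).2 ⟨zw, hw, rfl⟩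
    -- the top power
    have hexact : ∀ y, G.d y ≠ w ^ (m + 2) := by
      intro y hy
      have h1 : w ^ (m + 2) ∈ ⋀[ℂ]^(Module.finrank ℂ W) W := by
        have := pow_mem_deg hw (m + 2)
        rwa [← hW] at this
      have h2 := Dif.top_d hN' y
      change top W (G.d y) = 0 at h2
      rw [hy] at h2
      exact top_ne_zero h1 hwn h2
    have hwn0 : V.integral (cls zw ^ (m + 2)) ≠ 0 := by
      intro h0
      have h1 : cls (zw ^ (m + 2)) ∈ V.deg (m + 2) := by
        refine (hdeg _ _).2 ⟨zw ^ (m + 2), ?_, rfl⟩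
        exact pow_mem_deg hw (m + 2)
      rw [← map_pow] at h0
      obtain ⟨y, hy⟩ := (hker _).1 (V.integral_top _ h1 h0)
      exact hexact y hy
    have hNT : Nontrivial H := by
      refine ⟨⟨cls zw ^ (m + 2), 0, fun h => hwn0 ?_⟩⟩
      rw [h, map_zero]
    have hd0 := V.deg_zero
    have hSS : SS (gr V.deg) := SS_of_semisimple.{u₁, u₂, u₃, u₄} hd0 V.mul_mem V.deg_large
      V.integral V.duality B g hg A hA S c t₀ hloc
    have hPD : ∀ b ∈ Algebra.adjoin ℂ (V.deg 1 : Set H),
        (∀ a ∈ Algebra.adjoin ℂ (V.deg 1 : Set H), V.integral (a * b) = 0) → b = 0 := by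
      intro b hb hb0
      by_contra hne
      exact criterion.{u₁, u₂, u₃, u₄} V.deg_zero V.mul_mem V.deg_large V.integral V.integral_deg
        V.integral_top V.duality (cls zw) hw1 hwn0 b hb hne hb0 B g hg A hA S c t₀ hloc
    have hind := V.direct.submodule_iSupIndep
    have htop := V.direct.submodule_iSup_eq_top
    -- the class `u`
    apply hHL
    intro u hu hdu huv
    let zu : G.evenClosed := ⟨u, inv_two hu, hdu⟩
    have hu1 : cls zu ∈ V.deg 1 := (hdeg 1 _).2 ⟨zu, hu, rfl⟩
    have hzero : cls zw ^ m * cls zu = 0 := by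
      apply V.duality
      intro y
      have hmem : cls zw ^ m * cls zu ∈ V.deg (m + 1) := by
        rw [← map_pow, ← map_mul]
        refine (hdeg _ _).2 ⟨zw ^ m * zu, ?_, rfl⟩
        have := mul_mem_deg (pow_mem_deg hw m) hu
        rwa [show 2 * m + 2 = 2 * (m + 1) by ring] at this
      have hy : y ∈ ⨆ k, V.deg k := by rw [htop]; trivial
      induction hy using Submodule.iSup_induction' with
      | mem k y hy =>
        by_cases hk : k = 1
        · subst hk
          obtain ⟨zv, hzv, rfl⟩ := (hdeg 1 _).1 hy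
          have h1 : zw ^ m * zu * zv = 0 := Subtype.ext (huv _ hzv zv.2.2)
          rw [← map_pow, ← map_mul, ← map_mul, h1, map_zero, map_zero]
        · exact V.integral_deg _ (by omega) _ (V.mul_mem _ _ _ hmem _ hy)
      | zero => rw [mul_zero, map_zero]
      | add a b _ _ ha hb => rw [mul_add, map_add, ha, hb, add_zero]
    obtain ⟨x, -, hx⟩ := hard_lefschetz_bijective hd0 V.mul_mem V.deg_large hind hSS V.integral
      V.integral_deg hPD hw1 hwn0 (k := 1) (by omega)
      (Submodule.zero_mem (Subalgebra.toSubmodule (Algebra.adjoin ℂ (V.deg 1 : Set H))))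
      (Submodule.zero_mem (V.deg (m + 2 - 1)))
    have e1 := hx 0 ⟨⟨Subalgebra.zero_mem _, Submodule.zero_mem _⟩, mul_zero _⟩
    have e2 := hx (cls zu) ⟨⟨Algebra.subset_adjoin hu1, hu1⟩, hzero⟩
    exact (hker zu).1 (e2.trans e1.symm)

end Pool.Agent.Results.MP_a4dd1d_ag.SymplecticNilmanifolds
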